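import Pool.Agent.Helper64.LN.GoalsB

set_option autoImplicit false

open Topology Filter Set Metric UpperHalfPlane
open scoped MatrixGroups

namespace Pool.Agent.Helper2.LN

open Pool.Agent.Helper64.LN

/-- The linear action. -/
def act (g : SL(2, ℝ)) (v : ℝ × ℝ) : ℝ × ℝ :=
  (g 0 0 * v.1 + g 0 1 * v.2, g 1 0 * v.1 + g 1 1 * v.2)

/-- The determinant of two vectors. -/
def dt (v w : ℝ × ℝ) : ℝ := v.1 * w.2 - v.2 * w.1

lemma act_mul (g h : SL(2, ℝ)) (v : ℝ × ℝ) : act (g * h) v = act g (act h v) := by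
  ext <;>
  simp only [act, Matrix.SpecialLinearGroup.coe_mul, Matrix.mul_apply, Fin.sum_univ_two] <;> ring

lemma act_one (v : ℝ × ℝ) : act 1 v = v := by
  ext <;> simp [act]

lemma act_neg (g : SL(2, ℝ)) (v : ℝ × ℝ) : act (-g) v = -act g v := by
  ext <;>
  simp only [act, Matrix.SpecialLinearGroup.coe_neg, Matrix.neg_apply, Prod.fst_neg,
    Prod.snd_neg] <;> ring

lemma act_inv_act (g : SL(2, ℝ)) (v : ℝ × ℝ) : act g⁻¹ (act g v) = v := by
  rw [← act_mul, inv_mul_cancel, act_one]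

lemma act_act_inv (g : SL(2, ℝ)) (v : ℝ × ℝ) : act g (act g⁻¹ v) = v := by
  rw [← act_mul, mul_inv_cancel, act_one]

lemma act_smul (g : SL(2, ℝ)) (c : ℝ) (v : ℝ × ℝ) : act g (c • v) = c • act g v := by
  ext <;> simp only [act, Prod.smul_fst, Prod.smul_snd, smul_eq_mul] <;> ring

lemma act_zero (g : SL(2, ℝ)) : act g 0 = 0 := by
  ext <;> simp [act]

lemma act_ne (g : SL(2, ℝ)) {v : ℝ × ℝ} (h : v ≠ 0) : act g v ≠ 0 := by
  intro h1
  apply h
  rw [← act_inv_act g v, h1, act_zero]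

lemma dt_act (g : SL(2, ℝ)) (v w : ℝ × ℝ) : dt (act g v) (act g w) = dt v w := by
  have hdet := g.det_coe
  rw [Matrix.det_fin_two] at hdet
  simp only [dt, act]
  linear_combination (v.1 * w.2 - v.2 * w.1) * hdet

lemma qf_eq (g : SL(2, ℝ)) (v : ℝ × ℝ) : qf g v = dt v (act g v) := rfl

lemma Att_iff (g : SL(2, ℝ)) (v : ℝ × ℝ) :
    Att g v ↔ v ≠ 0 ∧ ∃ μ : ℝ, 1 ≤ |μ| ∧ act g v = μ • v := by
  constructor
  · rintro ⟨h, μ, h1, h2, h3⟩
    exact ⟨h, μ, h1, Prod.ext h2 h3⟩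
  · rintro ⟨h, μ, h1, h2⟩
    exact ⟨h, μ, h1, congrArg Prod.fst h2, congrArg Prod.snd h2⟩

lemma par {v w : ℝ × ℝ} (hv : v ≠ 0) (hw : w ≠ 0) (h : dt v w = 0) :
    ∃ c : ℝ, c ≠ 0 ∧ w = c • v := by
  unfold dt at h
  by_cases h1 : v.1 = 0
  · have h2 : v.2 ≠ 0 := fun h2 => hv (Prod.ext h1 h2)
    have h3 : w.1 = 0 := by
      have : v.2 * w.1 = 0 := by rw [h1] at h; linarith
      exact (mul_eq_zero.1 this).resolve_left h2
    have h4 : w.2 ≠ 0 := fun h4 => hw (Prod.ext h3 h4)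
    refine ⟨w.2 / v.2, div_ne_zero h4 h2, Prod.ext ?_ ?_⟩
    · simp [h1, h3]
    · simp only [Prod.smul_snd, smul_eq_mul]
      field_simp
  · have h4 : w.1 ≠ 0 := by
      intro h4
      have : v.1 * w.2 = 0 := by rw [h4] at h; linarith
      exact hw (Prod.ext h4 ((mul_eq_zero.1 this).resolve_left h1))
    refine ⟨w.1 / v.1, div_ne_zero h4 h1, Prod.ext ?_ ?_⟩
    · simp only [Prod.smul_fst, smul_eq_mul]
      field_simp
    · simp only [Prod.smul_snd, smul_eq_mul]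
      rw [div_mul_eq_mul_div, eq_div_iff h1]
      linarith

lemma smul_ne {c : ℝ} {v : ℝ × ℝ} (hc : c ≠ 0) (hv : v ≠ 0) : c • v ≠ 0 := smul_ne_zero hc hv

lemma smul_inj {c d : ℝ} {v : ℝ × ℝ} (hv : v ≠ 0) (h : c • v = d • v) : c = d := by
  by_contra hcd
  have h1 : (c - d) • v = 0 := by rw [sub_smul, h, sub_self]
  exact smul_ne (sub_ne_zero.2 hcd) hv h1

/-- The characteristic polynomial. -/
lemma charp (g : SL(2, ℝ)) {v : ℝ × ℝ} {μ : ℝ} (hv : v ≠ 0) (h : act g v = μ • v) :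
    μ ^ 2 - (g 0 0 + g 1 1) * μ + 1 = 0 := by
  have hdet := g.det_coe
  rw [Matrix.det_fin_two] at hdet
  have h1 : g 0 0 * v.1 + g 0 1 * v.2 = μ * v.1 := congrArg Prod.fst h
  have h2 : g 1 0 * v.1 + g 1 1 * v.2 = μ * v.2 := congrArg Prod.snd h
  have e1 : (μ ^ 2 - (g 0 0 + g 1 1) * μ + 1) * v.1 = 0 := by
    linear_combination (-(μ - g 1 1)) * h1 - g 0 1 * h2 - v.1 * hdet
  have e2 : (μ ^ 2 - (g 0 0 + g 1 1) * μ + 1) * v.2 = 0 := by
    linear_combination (-(μ - g 0 0)) * h2 - g 1 0 * h1 - v.2 * hdet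
  by_contra hne
  exact hv (Prod.ext ((mul_eq_zero.1 e1).resolve_left hne) ((mul_eq_zero.1 e2).resolve_left hne))

lemma ev_ex (g : SL(2, ℝ)) (μ : ℝ) (h : μ ^ 2 - (g 0 0 + g 1 1) * μ + 1 = 0) :
    ∃ v : ℝ × ℝ, v ≠ 0 ∧ act g v = μ • v := by
  have hdet := g.det_coe
  rw [Matrix.det_fin_two] at hdet
  by_cases h1 : ((g 0 1, μ - g 0 0) : ℝ × ℝ) = 0
  · have h2 : g 0 1 = 0 := congrArg Prod.fst h1
    have h3 : μ - g 0 0 = 0 := congrArg Prod.snd h1
    by_cases h4 : ((μ - g 1 1, g 1 0) : ℝ × ℝ) = 0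
    · have h5 : μ - g 1 1 = 0 := congrArg Prod.fst h4
      have h6 : g 1 0 = 0 := congrArg Prod.snd h4
      refine ⟨(1, 0), by simp, Prod.ext ?_ ?_⟩
      · simp only [act, Prod.smul_fst, smul_eq_mul]
        linarith
      · simp only [act, Prod.smul_snd, smul_eq_mul]
        linarith
    · refine ⟨_, h4, Prod.ext ?_ ?_⟩
      · simp only [act, Prod.smul_fst, smul_eq_mul]
        linear_combination g 1 0 * h2 - (μ - g 1 1) * h3
      · simp only [act, Prod.smul_snd, smul_eq_mul]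
        ring
  · refine ⟨_, h1, Prod.ext ?_ ?_⟩
    · simp only [act, Prod.smul_fst, smul_eq_mul]
      ring
    · simp only [act, Prod.smul_snd, smul_eq_mul]
      linear_combination (-1 : ℝ) * h - hdet

lemma indep (g : SL(2, ℝ)) {v w : ℝ × ℝ} {μ ν : ℝ} (hv : v ≠ 0) (hw : w ≠ 0)
    (h1 : act g v = μ • v) (h2 : act g w = ν • w) (h : μ ≠ ν) : dt v w ≠ 0 := by
  intro h3
  obtain ⟨c, hc, rfl⟩ := par hv hw h3
  rw [act_smul, h1, smul_comm] at h2
  exact h (smul_inj hw h2)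

lemma prod_one (g : SL(2, ℝ)) {v w : ℝ × ℝ} {μ ν : ℝ}
    (h1 : act g v = μ • v) (h2 : act g w = ν • w) (h : dt v w ≠ 0) : μ * ν = 1 := by
  have h3 := dt_act g v w
  rw [h1, h2] at h3
  have h4 : dt (μ • v) (ν • w) = μ * ν * dt v w := by
    simp only [dt, Prod.smul_fst, Prod.smul_snd, smul_eq_mul]
    ring
  rw [h4] at h3
  have h5 : (μ * ν - 1) * dt v w = 0 := by linarith
  rcases mul_eq_zero.1 h5 with h6 | h6
  · linarith
  · exact absurd h6 h

/-- Frame. -/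
lemma frame (g : SL(2, ℝ)) (h : 2 < |g 0 0 + g 1 1|) :
    ∃ (M : SL(2, ℝ)) (m : ℝ), 1 < |m| ∧
      ∀ u : ℝ × ℝ, act g (act M u) = act M (m * u.1, m⁻¹ * u.2) := by
  set t := g 0 0 + g 1 1 with ht
  have ht2 : 4 < t ^ 2 := by
    have := sq_abs t
    nlinarith [abs_nonneg t]
  set s := Real.sqrt (t ^ 2 - 4) with hs
  have hs2 : s ^ 2 = t ^ 2 - 4 := Real.sq_sqrt (by linarith)
  have hs0 : 0 < s := Real.sqrt_pos.2 (by linarith)
  obtain ⟨m, hm1, hm2, hm0⟩ : ∃ m : ℝ, m ^ 2 - t * m + 1 = 0 ∧ 1 < |m| ∧ m ≠ 0 := by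
    rcases lt_abs.1 h with h1 | h1
    · refine ⟨(t + s) / 2, by nlinarith, ?_, by positivity⟩
      rw [abs_of_pos (by linarith)]
      linarith
    · refine ⟨(t - s) / 2, by nlinarith, ?_, by intro h2; linarith⟩
      rw [abs_of_neg (by linarith)]
      linarith
  have hm3 : (m⁻¹) ^ 2 - t * m⁻¹ + 1 = 0 := by
    field_simp
    linarith
  obtain ⟨v, hv, h3⟩ := ev_ex g m hm1
  obtain ⟨w, hw, h4⟩ := ev_ex g m⁻¹ hm3
  have hne : m ≠ m⁻¹ := by
    intro h5
    have h6 : |m| = |m|⁻¹ := by rw [← abs_inv, ← h5]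
    have h7 : |m| * |m| = 1 := by
      nth_rw 2 [h6]
      exact mul_inv_cancel₀ (by positivity)
    nlinarith
  have hd := indep g hv hw h3 h4 hne
  have hdet : Matrix.det !![v.1, w.1 / dt v w; v.2, w.2 / dt v w] = 1 := by
    rw [Matrix.det_fin_two]
    simp only [Matrix.of_apply, Matrix.cons_val', Matrix.cons_val_zero, Matrix.cons_val_one,
      Matrix.cons_val_fin_one]
    have : v.1 * (w.2 / dt v w) - w.1 / dt v w * v.2 = dt v w / dt v w := by
      unfold dt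
      ring
    rw [this, div_self hd]
  refine ⟨⟨!![v.1, w.1 / dt v w; v.2, w.2 / dt v w], hdet⟩, m, hm2, ?_⟩
  intro u
  have key : ∀ u : ℝ × ℝ, act ⟨!![v.1, w.1 / dt v w; v.2, w.2 / dt v w], hdet⟩ u =
      u.1 • v + (u.2 / dt v w) • w := by
    intro u
    ext
    · simp only [act, Prod.fst_add, Prod.smul_fst, smul_eq_mul, Matrix.SpecialLinearGroup.coe_mk,
        Matrix.of_apply, Matrix.cons_val', Matrix.cons_val_zero, Matrix.cons_val_one,
        Matrix.cons_val_fin_one]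
      ring
    · simp only [act, Prod.snd_add, Prod.smul_snd, smul_eq_mul, Matrix.SpecialLinearGroup.coe_mk,
        Matrix.of_apply, Matrix.cons_val', Matrix.cons_val_zero, Matrix.cons_val_one,
        Matrix.cons_val_fin_one]
      ring
  have hadd : ∀ a b : ℝ × ℝ, act g (a + b) = act g a + act g b := by
    intro a b
    ext <;> simp only [act, Prod.fst_add, Prod.snd_add] <;> ring
  rw [key, key, hadd, act_smul, act_smul, h3, h4, smul_smul, smul_smul]
  congr 1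
  · congr 1
    ring
  · congr 1
    ring

/-- Uniqueness of the attracting vector. -/
lemma att_unique {a : SL(2, ℝ)} {v w : ℝ × ℝ} (h1 : Att a v) (h2 : Att a w) (ha : mh a ≠ 1) :
    dt v w = 0 := by
  by_contra hd
  rw [Att_iff] at h1 h2
  obtain ⟨hv, μ, hμ, h3⟩ := h1
  obtain ⟨hw, ν, hν, h4⟩ := h2
  have h5 := prod_one a h3 h4 hd
  have h6 : |μ| * |ν| = 1 := by rw [← abs_mul, h5, abs_one]
  have h7 : |μ| = 1 := by nlinarith [abs_nonneg μ, abs_nonneg ν]
  have h8 : μ = ν := by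
    by_contra hne
    have h9 : μ ^ 2 = 1 := by rw [← sq_abs, h7]; norm_num
    have h10 : μ * (ν - μ) = 0 := by linarith [h5, h9, sq μ]
    rcases mul_eq_zero.1 h10 with h11 | h11
    · rw [h11] at h7; simp at h7
    · exact hne (by linarith)
  subst h8
  have e1 : a 0 0 * v.1 + a 0 1 * v.2 = μ * v.1 := congrArg Prod.fst h3
  have e2 : a 1 0 * v.1 + a 1 1 * v.2 = μ * v.2 := congrArg Prod.snd h3
  have e3 : a 0 0 * w.1 + a 0 1 * w.2 = μ * w.1 := congrArg Prod.fst h4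
  have e4 : a 1 0 * w.1 + a 1 1 * w.2 = μ * w.2 := congrArg Prod.snd h4
  have f1 : a 0 0 = μ := by
    have : (a 0 0 - μ) * dt v w = 0 := by
      unfold dt
      linear_combination w.2 * e1 - v.2 * e3
    linarith [(mul_eq_zero.1 this).resolve_right hd]
  have f2 : a 0 1 = 0 := by
    have : a 0 1 * dt v w = 0 := by
      unfold dt
      linear_combination v.1 * e3 - w.1 * e1
    exact (mul_eq_zero.1 this).resolve_right hd
  have f3 : a 1 0 = 0 := by
    have : a 1 0 * dt v w = 0 := by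
      unfold dt
      linear_combination w.2 * e2 - v.2 * e4
    exact (mul_eq_zero.1 this).resolve_right hd
  have f4 : a 1 1 = μ := by
    have : (a 1 1 - μ) * dt v w = 0 := by
      unfold dt
      linear_combination v.1 * e4 - w.1 * e2
    linarith [(mul_eq_zero.1 this).resolve_right hd]
  have hμ2 : μ = 1 ∨ μ = -1 := by
    have : (μ - 1) * (μ + 1) = 0 := by linarith
    rcases mul_eq_zero.1 this with h | h
    · left; linarith
    · right; linarith
  apply ha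
  rw [← map_one mh, mh_eq_iff]
  rcases hμ2 with h | h
  · left
    ext i j
    fin_cases i <;> fin_cases j <;> simp [f1, f2, f3, f4, h]
  · right
    ext i j
    fin_cases i <;> fin_cases j <;> simp [f1, f2, f3, f4, h]

lemma att_neg {a : SL(2, ℝ)} {v : ℝ × ℝ} (h : Att a v) : Att (-a) v := by
  rw [Att_iff] at h ⊢
  obtain ⟨hv, μ, hμ, h1⟩ := h
  exact ⟨hv, -μ, by rwa [abs_neg], by rw [act_neg, h1, _root_.neg_smul]⟩

lemma att_unique' {a b : SL(2, ℝ)} {v w : ℝ × ℝ} (h1 : Att a v) (h2 : Att b w)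
    (hab : mh a = mh b) (ha : mh a ≠ 1) : dt v w = 0 := by
  rcases (mh_eq_iff a b).1 hab with rfl | rfl
  · exact att_unique h1 h2 ha
  · have h3 := att_neg h2
    exact att_unique h1 h3 ha

lemma att_conj {a g : SL(2, ℝ)} {v : ℝ × ℝ} (h : Att a v) : Att (g * a * g⁻¹) (act g v) := by
  rw [Att_iff] at h ⊢
  obtain ⟨hv, μ, hμ, h1⟩ := h
  refine ⟨act_ne g hv, μ, hμ, ?_⟩
  rw [act_mul, act_mul, act_inv_act, h1, act_smul]

/-- The formula for the quadratic form in terms of the eigenvectors. -/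
lemma qf_formula (b : SL(2, ℝ)) {p q : ℝ × ℝ} {μ ν : ℝ} (h1 : act b p = μ • p)
    (h2 : act b q = ν • q) (v : ℝ × ℝ) : qf b v * dt p q = (ν - μ) * dt v q * dt p v := by
  have e1 : b 0 0 * p.1 + b 0 1 * p.2 = μ * p.1 := congrArg Prod.fst h1
  have e2 : b 1 0 * p.1 + b 1 1 * p.2 = μ * p.2 := congrArg Prod.snd h1
  have e3 : b 0 0 * q.1 + b 0 1 * q.2 = ν * q.1 := congrArg Prod.fst h2
  have e4 : b 1 0 * q.1 + b 1 1 * q.2 = ν * q.2 := congrArg Prod.snd h2
  unfold qf dt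
  linear_combination (v.1 ^ 2 * q.2 - v.1 * v.2 * q.1) * e2 +
    (-v.1 ^ 2 * p.2 + v.1 * v.2 * p.1) * e4 - (v.1 * v.2 * q.2 - v.2 ^ 2 * q.1) * e1 -
    (-v.1 * v.2 * p.2 + v.2 ^ 2 * p.1) * e3

lemma hy_tr {F : ℍ ≃ₜ ℍ} {g : SL(2, ℝ)} (h : hy F) (hg : mh g = F) : 2 < |g 0 0 + g 1 1| := by
  obtain ⟨g', hg', ht⟩ := h
  rcases (mh_eq_iff g g').1 (by rw [hg, hg']) with rfl | rfl
  · exact ht
  · have : (-g') 0 0 + (-g') 1 1 = -(g' 0 0 + g' 1 1) := by
      simp only [Matrix.SpecialLinearGroup.coe_neg, Matrix.neg_apply]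
      ring
    rw [this, abs_neg]
    exact ht

lemma hy_ne {F : ℍ ≃ₜ ℍ} (h : hy F) : F ≠ 1 := by
  intro h1
  have h2 := hy_tr h (show mh 1 = F by rw [h1, map_one])
  have h3 : ((1 : SL(2, ℝ)) 0 0 : ℝ) + (1 : SL(2, ℝ)) 1 1 = 2 := by
    simp
    norm_num
  rw [h3] at h2
  norm_num at h2

/-- The ratio. -/
noncomputable def ra (v : ℝ × ℝ) : ℝ := v.1 / v.2

lemma ra_smul {c : ℝ} (hc : c ≠ 0) (v : ℝ × ℝ) : ra (c • v) = ra v := by
  simp only [ra, Prod.smul_fst, Prod.smul_snd, smul_eq_mul]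
  exact mul_div_mul_left _ _ hc

lemma ra_eq {N : SL(2, ℝ)} {v w : ℝ × ℝ} (hv : v ≠ 0) (hw : w ≠ 0) (h : dt v w = 0) :
    ra (act N v) = ra (act N w) := by
  obtain ⟨c, hc, rfl⟩ := par hv hw h
  rw [act_smul, ra_smul hc]

lemma dt_ra {x y : ℝ × ℝ} (hx : x.2 ≠ 0) (hy : y.2 ≠ 0) :
    dt x y = x.2 * y.2 * (ra x - ra y) := by
  unfold dt ra
  field_simp

lemma iff_sign {S : Prop} {P K Q : ℝ} (hK : 0 < K) (hP : P = K * Q) (hQ : Q ≠ 0)
    (h1 : P < 0 → S) (h2 : 0 < P → ¬ S) : S ↔ Q < 0 := by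
  constructor
  · intro hs
    by_contra hq
    have hq' : 0 < Q := lt_of_le_of_ne (not_lt.1 hq) (Ne.symm hQ)
    exact h2 (by rw [hP]; exact mul_pos hK hq') hs
  · intro hq
    exact h1 (by rw [hP]; exact mul_neg_of_pos_of_neg hK hq)

theorem goalCO (hG1 : GoalG1) (hG2 : GoalG2) (hCR1 : GoalCR1) (hCR2 : GoalCR2)
    (hCR3 : GoalCR3) : GoalCO := by
  intro Γ hΓ
  set D := Γ.map mh with hD
  have hfr : ∀ F : ℍ ≃ₜ ℍ, ∃ (g M : SL(2, ℝ)) (m : ℝ), F ∈ D → hy F → g ∈ Γ ∧ mh g = F ∧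
      1 < |m| ∧ ∀ u : ℝ × ℝ, act g (act M u) = act M (m * u.1, m⁻¹ * u.2) := by
    intro F
    by_cases h : F ∈ D ∧ hy F
    · obtain ⟨⟨g, hg, hgF⟩, hF⟩ := h
      obtain ⟨M, m, h1, h2⟩ := frame g (hy_tr hF hgF)
      exact ⟨g, M, m, fun _ _ => ⟨hg, hgF, h1, h2⟩⟩
    · exact ⟨1, 1, 1, fun h1 h2 => absurd ⟨h1, h2⟩ h⟩
  have hat : ∀ A : ℍ ≃ₜ ℍ, ∃ (a : SL(2, ℝ)) (v : ℝ × ℝ), A ∈ D → A ≠ 1 →
      a ∈ Γ ∧ mh a = A ∧ Att a v := by
    intro A
    by_cases h : A ∈ D ∧ A ≠ 1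
    · obtain ⟨⟨a, ha, haA⟩, hA⟩ := h
      have haA' : mh a = A := haA
      obtain ⟨v, hv⟩ := ((hG2 Γ hΓ).1 a ha (by rw [haA']; exact hA)).2
      exact ⟨a, v, fun _ _ => ⟨ha, haA, hv⟩⟩
    · exact ⟨1, 0, fun h1 h2 => absurd ⟨h1, h2⟩ h⟩
  choose g M m hFr using hfr
  choose a v hAt using hat
  have v0 : ∀ A ∈ D, A ≠ 1 → v A ≠ 0 := fun A h1 h2 => (hAt A h1 h2).2.2.1
  -- common eigenvectors
  have hcom : ∀ x ∈ Γ, ∀ y ∈ Γ, ∀ (w : ℝ × ℝ) (μ ν : ℝ), w ≠ 0 → act x w = μ • w →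
      act y w = ν • w → mh x * mh y = mh y * mh x := by
    intro x hx y hy' w μ ν hw h1 h2
    exact hG1 Γ hΓ x hx y hy' w μ ν hw (congrArg Prod.fst h1) (congrArg Prod.snd h1)
      (congrArg Prod.fst h2) (congrArg Prod.snd h2)
  have hEQ : ∀ A ∈ D, ∀ B ∈ D, A ≠ 1 → B ≠ 1 → dt (v A) (v B) = 0 → A * B = B * A := by
    intro A hA B hB hA1 hB1 h
    obtain ⟨ha1, ha2, ha3⟩ := hAt A hA hA1
    obtain ⟨hb1, hb2, hb3⟩ := hAt B hB hB1
    obtain ⟨hv, μ, _, h1⟩ := (Att_iff _ _).1 ha3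
    obtain ⟨hw, ν, _, h2⟩ := (Att_iff _ _).1 hb3
    obtain ⟨c, hc, h3⟩ := par hv hw h
    have h4 : act (a B) (v A) = ν • v A := by
      rw [h3, act_smul, smul_comm] at h2
      exact smul_right_injective _ hc h2
    have := hcom _ ha1 _ hb1 _ μ ν hv h1 h4
    rwa [ha2, hb2] at this
  -- Nc facts
  have hNc1 : ∀ F A : ℍ ≃ₜ ℍ, Nc F A → A ≠ 1 := by
    intro F A h h1
    exact h (by rw [h1, mul_one, one_mul])
  have hNc2 : ∀ F A : ℍ ≃ₜ ℍ, Nc F A → Nc F A⁻¹ := by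
    intro F A h h1
    apply h
    have : A * (F * A⁻¹) * A = A * (A⁻¹ * F) * A := by rw [h1]
    simpa [mul_assoc] using this.symm
  -- coordinates are nonzero
  have hco : ∀ F ∈ D, ∀ A ∈ D, hy F → Nc F A → (act (M F)⁻¹ (v A)).1 ≠ 0 ∧
      (act (M F)⁻¹ (v A)).2 ≠ 0 := by
    intro F hF A hA hFh hn
    obtain ⟨hg1, hg2, hm, hu⟩ := hFr F hF hFh
    have hA1 := hNc1 F A hn
    obtain ⟨ha1, ha2, ha3⟩ := hAt A hA hA1
    obtain ⟨hv, μ, _, h1⟩ := (Att_iff _ _).1 ha3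
    have key := hu (act (M F)⁻¹ (v A))
    rw [act_act_inv] at key
    constructor
    · intro h2
      have h3 : act (g F) (v A) = (m F)⁻¹ • v A := by
        rw [key, h2]
        have : ((m F * 0, (m F)⁻¹ * (act (M F)⁻¹ (v A)).2) : ℝ × ℝ) =
            (m F)⁻¹ • act (M F)⁻¹ (v A) := by
          ext
          · simp only [Prod.smul_fst, smul_eq_mul, h2, mul_zero]
          · simp only [Prod.smul_snd, smul_eq_mul]
        rw [this, act_smul, act_act_inv]
      have := hcom _ hg1 _ ha1 _ _ μ hv h3 h1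
      rw [hg2, ha2] at this
      exact hn this
    · intro h2
      have h3 : act (g F) (v A) = (m F) • v A := by
        rw [key, h2]
        have : ((m F * (act (M F)⁻¹ (v A)).1, (m F)⁻¹ * 0) : ℝ × ℝ) =
            (m F) • act (M F)⁻¹ (v A) := by
          ext
          · simp only [Prod.smul_fst, smul_eq_mul]
          · simp only [Prod.smul_snd, smul_eq_mul, h2, mul_zero]
        rw [this, act_smul, act_act_inv]
      have := hcom _ hg1 _ ha1 _ _ μ hv h3 h1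
      rw [hg2, ha2] at this
      exact hn this
  have htauEQ : ∀ F ∈ D, ∀ A ∈ D, ∀ B ∈ D, hy F → Nc F A → Nc F B →
      ra (act (M F)⁻¹ (v A)) = ra (act (M F)⁻¹ (v B)) → dt (v A) (v B) = 0 := by
    intro F hF A hA B hB hFh h1 h2 h3
    rw [← dt_act (M F)⁻¹, dt_ra (hco F hF A hA hFh h1).2 (hco F hF B hB hFh h2).2, h3, sub_self,
      mul_zero]
  -- commuting elements
  have hCOM : ∀ A ∈ D, ∀ B ∈ D, A ≠ 1 → B ≠ 1 → A * B = B * A →
      dt (v A) (v B) = 0 ∨ dt (v A) (v B⁻¹) = 0 := by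
    intro A hA B hB hA1 hB1 hAB
    obtain ⟨ha1, ha2, ha3⟩ := hAt A hA hA1
    obtain ⟨hb1, hb2, hb3⟩ := hAt B hB hB1
    obtain ⟨hc1, hc2, hc3⟩ := hAt B⁻¹ (D.inv_mem hB) (inv_ne_one.2 hB1)
    obtain ⟨hv, μ, hμ, h1⟩ := (Att_iff _ _).1 ha3
    have hw : act (a B) (v A) ≠ 0 := act_ne _ hv
    have hmm : mh (a A * a B) = mh (a B * a A) := by
      rw [map_mul, map_mul, ha2, hb2, hAB]
    have hc : ∃ c : ℝ, c ≠ 0 ∧ act (a B) (v A) = c • v A := by
      rcases (mh_eq_iff _ _).1 hmm with h2 | h2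
      · have h3 : act (a A) (act (a B) (v A)) = μ • act (a B) (v A) := by
          rw [← act_mul, h2, act_mul, h1, act_smul]
        have h4 : Att (a A) (act (a B) (v A)) := (Att_iff _ _).2 ⟨hw, μ, hμ, h3⟩
        exact par hv hw (att_unique ha3 h4 (by rw [ha2]; exact hA1))
      · have h3 : act (a A) (act (a B) (v A)) = (-μ) • act (a B) (v A) := by
          rw [← act_mul, h2, act_neg, act_mul, h1, act_smul, _root_.neg_smul]
        exfalso
        by_cases h4 : dt (v A) (act (a B) (v A)) = 0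
        · obtain ⟨c, hc, h5⟩ := par hv hw h4
          have h6 : act (a A) (act (a B) (v A)) = μ • act (a B) (v A) := by
            rw [h5, act_smul, h1, smul_comm]
          rw [h3] at h6
          have h7 := smul_inj hw h6
          have h8 : μ = 0 := by linarith
          rw [h8] at hμ
          norm_num at hμ
        · have h5 := prod_one (a A) h1 h3 h4
          nlinarith [sq_nonneg μ]
    obtain ⟨c, hc0, hc⟩ := hc
    by_cases hcc : 1 ≤ |c|
    · left
      have h4 : Att (a B) (v A) := (Att_iff _ _).2 ⟨hv, c, hcc, hc⟩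
      exact att_unique h4 hb3 (by rw [hb2]; exact hB1)
    · right
      have h4 : Att (a B)⁻¹ (v A) := by
        refine (Att_iff _ _).2 ⟨hv, c⁻¹, ?_, ?_⟩
        · rw [abs_inv]
          exact (one_le_inv₀ (abs_pos.2 hc0)).2 (not_le.1 hcc).le
        · have h5 := act_inv_act (a B) (v A)
          rw [hc, act_smul] at h5
          rw [← h5, smul_smul, inv_mul_cancel₀ hc0, one_smul]
          rw [h5]
      refine att_unique' h4 hc3 ?_ ?_
      · rw [map_inv, hb2, hc2]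
      · rw [map_inv, hb2]
        exact inv_ne_one.2 hB1
  -- the form of a hyperbolic element
  have hform : ∀ F ∈ D, ∀ B ∈ D, hy F → hy B → Nc F B → ∃ C : ℝ, C ≠ 0 ∧
      qf (a B) (act (M F) (1, 0)) = C ∧ ∀ X ∈ D, Nc F X →
        qf (a B) (v X) = C * (act (M F)⁻¹ (v X)).2 ^ 2 *
          ((ra (act (M F)⁻¹ (v X)) - ra (act (M F)⁻¹ (v B))) *
            (ra (act (M F)⁻¹ (v X)) - ra (act (M F)⁻¹ (v B⁻¹)))) := by
    intro F hF B hB hFh hBh hn
    have hB1 := hNc1 F B hn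
    obtain ⟨hb1, hb2, hb3⟩ := hAt B hB hB1
    obtain ⟨hc1, hc2, hc3⟩ := hAt B⁻¹ (D.inv_mem hB) (inv_ne_one.2 hB1)
    have htr := hy_tr hBh hb2
    obtain ⟨hp, μ, hμ, h1⟩ := (Att_iff _ _).1 hb3
    have h2 : Att (a B)⁻¹ (v B⁻¹) := by
      rcases (mh_eq_iff (a B⁻¹) (a B)⁻¹).1 (by rw [map_inv, hb2, hc2]) with h3 | h3
      · rw [← h3]; exact hc3
      · rw [show (a B)⁻¹ = -(a B⁻¹) by rw [h3, neg_neg]]
        exact att_neg hc3
    obtain ⟨hq, ν, hν, h3⟩ := (Att_iff _ _).1 h2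
    have hν0 : ν ≠ 0 := by
      intro h
      rw [h] at hν
      norm_num at hν
    have h4 : act (a B) (v B⁻¹) = ν⁻¹ • v B⁻¹ := by
      have h5 := act_act_inv (a B) (v B⁻¹)
      rw [h3, act_smul] at h5
      rw [← h5, smul_smul, inv_mul_cancel₀ hν0, one_smul]
      rw [h5]
    have hne : μ ≠ ν⁻¹ := by
      intro h5
      have h6 : |μ| ≤ 1 := by
        rw [h5, abs_inv]
        exact inv_le_one_of_one_le₀ hν
      have h7 : |μ| = 1 := le_antisymm h6 hμ
      have h8 := charp (a B) hp h1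
      have h9 : μ ^ 2 = 1 := by rw [← sq_abs, h7]; norm_num
      have h10 : (a B 0 0 + a B 1 1) * μ = 2 := by linarith
      have h11 : |a B 0 0 + a B 1 1| * |μ| = 2 := by
        rw [← abs_mul, h10]; norm_num
      rw [h7] at h11
      linarith
    have hδ : dt (v B) (v B⁻¹) ≠ 0 := indep (a B) hp hq h1 h4 hne
    have cB := hco F hF B hB hFh hn
    have cB' := hco F hF B⁻¹ (D.inv_mem hB) hFh (hNc2 F B hn)
    set P := act (M F)⁻¹ (v B) with hP
    set Q := act (M F)⁻¹ (v B⁻¹) with hQ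
    have eP : v B = act (M F) P := (act_act_inv _ _).symm
    have eQ : v B⁻¹ = act (M F) Q := (act_act_inv _ _).symm
    set δ := dt (v B) (v B⁻¹) with hδd
    refine ⟨-((ν⁻¹ - μ) * P.2 * Q.2) / δ, ?_, ?_, ?_⟩
    · refine div_ne_zero (neg_ne_zero.2 (mul_ne_zero (mul_ne_zero ?_ cB.2) cB'.2)) hδ
      exact sub_ne_zero.2 (Ne.symm hne)
    · rw [eq_div_iff hδ, qf_formula (a B) h1 h4, eP, eQ, dt_act (M F) (1, 0) Q,
        dt_act (M F) P (1, 0)]
      simp only [dt]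
      ring
    · intro X hX hnX
      have cX := hco F hF X hX hFh hnX
      set x := act (M F)⁻¹ (v X) with hx
      have eX : v X = act (M F) x := (act_act_inv _ _).symm
      have h5 := qf_formula (a B) h1 h4 (v X)
      rw [← hδd] at h5
      rw [eX, eP, eQ, dt_act (M F) x Q, dt_act (M F) P x, dt_ra cX.2 cB'.2, dt_ra cB.2 cX.2,
        ← eX] at h5
      have h6 : qf (a B) (v X) = ((ν⁻¹ - μ) * (x.2 * Q.2 * (ra x - ra Q)) *
          (P.2 * x.2 * (ra P - ra x))) / δ := by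
        rw [eq_div_iff hδ]
        exact h5
      rw [h6]
      field_simp
      ring
  -- different ratios
  have hsepne : ∀ F ∈ D, ∀ B ∈ D, ∀ X ∈ D, hy F → Nc F B → Nc F X → Nc B X →
      ra (act (M F)⁻¹ (v X)) - ra (act (M F)⁻¹ (v B)) ≠ 0 ∧
      ra (act (M F)⁻¹ (v X)) - ra (act (M F)⁻¹ (v B⁻¹)) ≠ 0 := by
    intro F hF B hB X hX hFh h1 h2 h3
    have hB1 := hNc1 F B h1
    have hX1 := hNc1 F X h2
    constructor
    · intro h4
      have h5 := htauEQ F hF X hX B hB hFh h2 h1 (sub_eq_zero.1 h4)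
      exact h3 (hEQ X hX B hB hX1 hB1 h5).symm
    · intro h4
      have h5 := htauEQ F hF X hX B⁻¹ (D.inv_mem hB) hFh h2 (hNc2 F B h1) (sub_eq_zero.1 h4)
      have h6 := hEQ X hX B⁻¹ (D.inv_mem hB) hX1 (inv_ne_one.2 hB1) h5
      have h7 : Nc X B := fun h => h3 h.symm
      exact hNc2 X B h7 h6
  refine ⟨fun F A => ra (act (M F)⁻¹ (v A)), fun F => m F ^ 2, ?_⟩
  exact
    { crhy := by
        rintro _ ⟨x, hx, rfl⟩ _ ⟨y, hy', rfl⟩ h
        obtain ⟨h1, h2, _⟩ := hCR3 Γ hΓ x hx y hy' h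
        exact ⟨⟨x, rfl, h1⟩, ⟨y, rfl, h2⟩⟩
      kap := by
        intro F hF hFh
        obtain ⟨_, _, hm, _⟩ := hFr F hF hFh
        have h1 : m F ^ 2 = |m F| ^ 2 := (sq_abs _).symm
        show 1 < m F ^ 2
        rw [h1]
        nlinarith
      nz := by
        intro F hF A hA hFh hn
        obtain ⟨h1, h2⟩ := hco F hF A hA hFh hn
        exact div_ne_zero h1 h2
      tr := by
        intro F hF A hA hFh hn
        show ra (act (M F)⁻¹ (v (F * A * F⁻¹))) = m F ^ 2 * ra (act (M F)⁻¹ (v A))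
        obtain ⟨hg1, hg2, hm, hu⟩ := hFr F hF hFh
        have hA1 := hNc1 F A hn
        have hA' : F * A * F⁻¹ ∈ D := D.mul_mem (D.mul_mem hF hA) (D.inv_mem hF)
        have hA1' : F * A * F⁻¹ ≠ 1 := by
          intro h
          apply hA1
          rw [mul_inv_eq_one] at h
          exact mul_eq_left.1 h
        obtain ⟨ha1, ha2, ha3⟩ := hAt A hA hA1
        obtain ⟨hb1, hb2, hb3⟩ := hAt _ hA' hA1'
        have h1 : Att (g F * a A * (g F)⁻¹) (act (g F) (v A)) := att_conj ha3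
        have h2 : dt (v (F * A * F⁻¹)) (act (g F) (v A)) = 0 := by
          refine att_unique' hb3 h1 ?_ ?_
          · rw [hb2, map_mul, map_mul, map_inv, hg2, ha2]
          · rw [hb2]; exact hA1'
        rw [ra_eq (v0 _ hA' hA1') (act_ne _ (v0 A hA hA1)) h2]
        have h3 := hu (act (M F)⁻¹ (v A))
        rw [act_act_inv] at h3
        rw [h3, act_inv_act]
        obtain ⟨c1, c2⟩ := hco F hF A hA hFh hn
        have hm0 : m F ≠ 0 := by
          intro h
          rw [h] at hm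
          norm_num at hm
        simp only [ra]
        field_simp
      self := by
        intro F hF A hA B hB hFh h1 h2
        obtain ⟨hg1, hg2, hm, hu⟩ := hFr F hF hFh
        have hA1 := hNc1 F A h1
        have hB1 := hNc1 F B h2
        obtain ⟨ha1, ha2, ha3⟩ := hAt A hA hA1
        obtain ⟨hb1, hb2, hb3⟩ := hAt B hB hB1
        have hm0 : m F ≠ 0 := by
          intro h
          rw [h] at hm
          norm_num at hm
        have hmm : (m F)⁻¹ - m F ≠ 0 := by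
          intro h
          have h3 : (m F)⁻¹ = m F := sub_eq_zero.1 h
          have h4 : |m F| * |m F| = 1 := by
            rw [← abs_mul]
            nth_rw 1 [← h3]
            rw [inv_mul_cancel₀ hm0, abs_one]
          nlinarith
        have hqf : ∀ X, qf (g F) (v X) = ((m F)⁻¹ - m F) * ((act (M F)⁻¹ (v X)).1 *
            (act (M F)⁻¹ (v X)).2) := by
          intro X
          have h3 := hu (act (M F)⁻¹ (v X))
          rw [act_act_inv] at h3
          rw [qf_eq, h3]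
          nth_rw 1 [← act_act_inv (M F) (v X)]
          rw [dt_act]
          simp only [dt]
          ring
        obtain ⟨c1, c2⟩ := hco F hF A hA hFh h1
        obtain ⟨d1, d2⟩ := hco F hF B hB hFh h2
        show Sp F A B ↔ ra (act (M F)⁻¹ (v A)) * ra (act (M F)⁻¹ (v B)) < 0
        refine iff_sign (P := qf (g F) (v A) * qf (g F) (v B))
          (K := (((m F)⁻¹ - m F) * ((act (M F)⁻¹ (v A)).2 * (act (M F)⁻¹ (v B)).2)) ^ 2)
          (by positivity) ?_ (mul_ne_zero (div_ne_zero c1 c2) (div_ne_zero d1 d2)) ?_ ?_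
        · rw [hqf, hqf]
          simp only [ra]
          field_simp
        · intro h3
          have := hCR1 (g F) (a A) (a B) (v A) (v B) (hy_tr hFh hg2) (by rw [ha2]; exact hA1)
            (by rw [hb2]; exact hB1) ha3 hb3 h3
          rwa [hg2, ha2, hb2] at this
        · intro h3
          have := hCR2 (g F) (a A) (a B) (v A) (v B) (hy_tr hFh hg2) (by rw [ha2]; exact hA1)
            (by rw [hb2]; exact hB1) ha3 hb3 h3
          rwa [hg2, ha2, hb2] at this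
      sepf := by
        intro F hF B hB X hX hFh hBh h1 h2 h3
        obtain ⟨hg1, hg2, hm, hu⟩ := hFr F hF hFh
        obtain ⟨C, hC, hC1, hC2⟩ := hform F hF B hB hFh hBh h1
        have hB1 := hNc1 F B h1
        have hX1 := hNc1 F X h2
        obtain ⟨hb1, hb2, hb3⟩ := hAt B hB hB1
        obtain ⟨hx1, hx2, hx3⟩ := hAt X hX hX1
        obtain ⟨d1, d2⟩ := hco F hF X hX hFh h2
        obtain ⟨e1, e2⟩ := hsepne F hF B hB X hX hFh h1 h2 h3
        have hFatt : Att (g F) (act (M F) (1, 0)) := by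
          refine (Att_iff _ _).2 ⟨act_ne _ (by simp), m F, hm.le, ?_⟩
          rw [hu, ← act_smul]
          congr 1
          ext <;> simp
        refine iff_sign (P := qf (a B) (v X) * qf (a B) (act (M F) (1, 0)))
          (K := (C * (act (M F)⁻¹ (v X)).2) ^ 2) (by positivity) ?_ (mul_ne_zero e1 e2) ?_ ?_
        · rw [hC1, hC2 X hX h2]
          ring
        · intro h4
          have := hCR1 (a B) (a X) (g F) (v X) _ (hy_tr hBh hb2) (by rw [hx2]; exact hX1)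
            (by rw [hg2]; exact hy_ne hFh) hx3 hFatt h4
          rwa [hg2, hx2, hb2] at this
        · intro h4
          have := hCR2 (a B) (a X) (g F) (v X) _ (hy_tr hBh hb2) (by rw [hx2]; exact hX1)
            (by rw [hg2]; exact hy_ne hFh) hx3 hFatt h4
          rwa [hg2, hx2, hb2] at this
      sep := by
        intro F hF B hB X hX Y hY hFh hBh h1 h2 h3 h4 h5
        obtain ⟨C, hC, hC1, hC2⟩ := hform F hF B hB hFh hBh h1
        have hB1 := hNc1 F B h1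
        have hX1 := hNc1 F X h2
        have hY1 := hNc1 F Y h3
        obtain ⟨hb1, hb2, hb3⟩ := hAt B hB hB1
        obtain ⟨hx1, hx2, hx3⟩ := hAt X hX hX1
        obtain ⟨hy1, hy2, hy3⟩ := hAt Y hY hY1
        obtain ⟨d1, d2⟩ := hco F hF X hX hFh h2
        obtain ⟨d1', d2'⟩ := hco F hF Y hY hFh h3
        obtain ⟨e1, e2⟩ := hsepne F hF B hB X hX hFh h1 h2 h4
        obtain ⟨e1', e2'⟩ := hsepne F hF B hB Y hY hFh h1 h3 h5
        refine iff_sign (P := qf (a B) (v X) * qf (a B) (v Y))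
          (K := (C * (act (M F)⁻¹ (v X)).2 * (act (M F)⁻¹ (v Y)).2) ^ 2) (by positivity) ?_
          (mul_ne_zero (mul_ne_zero e1 e2) (mul_ne_zero e1' e2')) ?_ ?_
        · rw [hC2 X hX h2, hC2 Y hY h3]
          ring
        · intro h6
          have := hCR1 (a B) (a X) (a Y) (v X) (v Y) (hy_tr hBh hb2) (by rw [hx2]; exact hX1)
            (by rw [hy2]; exact hY1) hx3 hy3 h6
          rwa [hy2, hx2, hb2] at this
        · intro h6
          have := hCR2 (a B) (a X) (a Y) (v X) (v Y) (hy_tr hBh hb2) (by rw [hx2]; exact hX1)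
            (by rw [hy2]; exact hY1) hx3 hy3 h6
          rwa [hy2, hx2, hb2] at this
      eq := by
        intro F hF A hA B hB hFh h1 h2 h3
        exact hEQ A hA B hB (hNc1 F A h1) (hNc1 F B h2)
          (htauEQ F hF A hA B hB hFh h1 h2 h3)
      com := by
        intro F hF A hA B hB hFh h1 h2 h3
        have hA1 := hNc1 F A h1
        have hB1 := hNc1 F B h2
        have hA' := D.inv_mem hA
        have hB' := D.inv_mem hB
        have hA1' : A⁻¹ ≠ 1 := inv_ne_one.2 hA1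
        have hB1' : B⁻¹ ≠ 1 := inv_ne_one.2 hB1
        have h4 : A⁻¹ * B = B * A⁻¹ := by
          have := congrArg (fun z => A⁻¹ * z * A⁻¹) h3
          simp only [mul_assoc] at this
          simpa using this.symm
        have h5 : B⁻¹ * A = A * B⁻¹ := by
          have := congrArg (fun z => B⁻¹ * z * B⁻¹) h3.symm
          simp only [mul_assoc] at this
          simpa using this.symm
        have r1 : ∀ X ∈ D, ∀ Y ∈ D, X ≠ 1 → Y ≠ 1 → dt (v X) (v Y) = 0 →
            ra (act (M F)⁻¹ (v X)) = ra (act (M F)⁻¹ (v Y)) :=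
          fun X hX Y hY hX1 hY1 h => ra_eq (v0 X hX hX1) (v0 Y hY hY1) h
        have f1 : ra (act (M F)⁻¹ (v A)) = ra (act (M F)⁻¹ (v B)) ∨
            ra (act (M F)⁻¹ (v A)) = ra (act (M F)⁻¹ (v B⁻¹)) :=
          (hCOM A hA B hB hA1 hB1 h3).imp (r1 A hA B hB hA1 hB1) (r1 A hA B⁻¹ hB' hA1 hB1')
        have f2 : ra (act (M F)⁻¹ (v A⁻¹)) = ra (act (M F)⁻¹ (v B)) ∨
            ra (act (M F)⁻¹ (v A⁻¹)) = ra (act (M F)⁻¹ (v B⁻¹)) :=
          (hCOM A⁻¹ hA' B hB hA1' hB1 h4).imp (r1 A⁻¹ hA' B hB hA1' hB1)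
            (r1 A⁻¹ hA' B⁻¹ hB' hA1' hB1')
        have f3 : ra (act (M F)⁻¹ (v B)) = ra (act (M F)⁻¹ (v A)) ∨
            ra (act (M F)⁻¹ (v B)) = ra (act (M F)⁻¹ (v A⁻¹)) :=
          (hCOM B hB A hA hB1 hA1 h3.symm).imp (r1 B hB A hA hB1 hA1) (r1 B hB A⁻¹ hA' hB1 hA1')
        have f4 : ra (act (M F)⁻¹ (v B⁻¹)) = ra (act (M F)⁻¹ (v A)) ∨
            ra (act (M F)⁻¹ (v B⁻¹)) = ra (act (M F)⁻¹ (v A⁻¹)) :=
          (hCOM B⁻¹ hB' A hA hB1' hA1 h5).imp (r1 B⁻¹ hB' A hA hB1' hA1)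
            (r1 B⁻¹ hB' A⁻¹ hA' hB1' hA1')
        show (ra (act (M F)⁻¹ (v B)) = ra (act (M F)⁻¹ (v A)) ∧
            ra (act (M F)⁻¹ (v B⁻¹)) = ra (act (M F)⁻¹ (v A⁻¹))) ∨
          (ra (act (M F)⁻¹ (v B)) = ra (act (M F)⁻¹ (v A⁻¹)) ∧
            ra (act (M F)⁻¹ (v B⁻¹)) = ra (act (M F)⁻¹ (v A)))
        generalize ra (act (M F)⁻¹ (v A)) = p at *
        generalize ra (act (M F)⁻¹ (v A⁻¹)) = q at *
        generalize ra (act (M F)⁻¹ (v B)) = p' at *
        generalize ra (act (M F)⁻¹ (v B⁻¹)) = q' at *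
        rcases f1 with f1 | f1 <;> rcases f2 with f2 | f2
        · left
          refine ⟨f1.symm, ?_⟩
          rcases f4 with f4 | f4
          · rw [f4, f1, f2]
          · exact f4
        · left
          exact ⟨f1.symm, f2.symm⟩
        · right
          exact ⟨f2.symm, f1.symm⟩
        · right
          refine ⟨?_, f1.symm⟩
          rcases f3 with f3 | f3
          · rw [f3, f1, f2]
          · exact f3 }

end Pool.Agent.Helper2.LN
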