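import Pool.Agent.Helper85.LN.Goals

/-! Project LN (MP_d0c558_al): goal FIDX. -/

namespace Pool.Agent.Helper2.LN

open Pool.Agent.Helper85.LN
open Pool.Agent.Helper5.Gap

section
variable {m d : ℕ} (A : Auto (Fin m) (Fin d))

theorem mem_ball_iff (n : ℕ) (g : Equiv.Perm (List (Fin d))) :
    g ∈ ball (Set.range A.perm) n ↔ ∃ w : List (S (Fin m)), w.length ≤ n ∧ A.val w = g := by
  constructor
  · rintro ⟨l, hl, hx, rfl⟩
    suffices h : ∀ l : List (Equiv.Perm (List (Fin d))),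
        (∀ x ∈ l, x ∈ Set.range A.perm ∨ x⁻¹ ∈ Set.range A.perm) →
        ∃ w : List (S (Fin m)), w.length = l.length ∧ A.val w = l.prod by
      obtain ⟨w, h1, h2⟩ := h l hx
      exact ⟨w, by omega, h2⟩
    clear hx hl l
    intro l
    induction l with
    | nil => intro _; exact ⟨[], rfl, by simp [A.val_nil]⟩
    | cons x l ih =>
      intro hx
      obtain ⟨w, h1, h2⟩ := ih fun y hy => hx y (List.mem_cons_of_mem _ hy)
      rcases hx x List.mem_cons_self with ⟨q, hq⟩ | ⟨q, hq⟩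
      · refine ⟨(q, true) :: w, by simp [h1], ?_⟩
        rw [A.val_cons, h2, List.prod_cons, ← hq]
        rfl
      · refine ⟨(q, false) :: w, by simp [h1], ?_⟩
        rw [A.val_cons, h2, List.prod_cons]
        have : x = (A.perm q)⁻¹ := by rw [hq, inv_inv]
        rw [this]
        rfl
  · rintro ⟨w, hw, rfl⟩
    refine ⟨w.map A.ps, by simpa using hw, ?_, rfl⟩
    intro x hx
    obtain ⟨s, -, rfl⟩ := List.mem_map.mp hx
    obtain ⟨q, b⟩ := s
    cases b
    · right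
      exact ⟨q, by simp [Auto.ps]⟩
    · left
      exact ⟨q, rfl⟩

theorem finite_ball (n : ℕ) : (ball (Set.range A.perm) n).Finite := by
  have h := (List.finite_length_le (S (Fin m)) n).image A.val
  refine h.subset fun g hg => ?_
  obtain ⟨w, h1, h2⟩ := (mem_ball_iff A n g).mp hg
  exact ⟨w, h1, h2⟩

theorem ball_mono {n n' : ℕ} (h : n ≤ n') :
    ball (Set.range A.perm) n ⊆ ball (Set.range A.perm) n' := by
  rintro g ⟨l, hl, hx, rfl⟩
  exact ⟨l, hl.trans h, hx, rfl⟩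

theorem mul_mem_ball {n n' : ℕ} {g g' : Equiv.Perm (List (Fin d))}
    (h : g ∈ ball (Set.range A.perm) n) (h' : g' ∈ ball (Set.range A.perm) n') :
    g * g' ∈ ball (Set.range A.perm) (n + n') := by
  obtain ⟨w, h1, rfl⟩ := (mem_ball_iff A n g).mp h
  obtain ⟨w', h1', rfl⟩ := (mem_ball_iff A n' g').mp h'
  refine (mem_ball_iff A _ _).mpr ⟨w ++ w', by simp; omega, A.val_append w w'⟩

theorem ball_sub_G {n : ℕ} {g : Equiv.Perm (List (Fin d))}
    (h : g ∈ ball (Set.range A.perm) n) : g ∈ A.G := by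
  obtain ⟨w, -, rfl⟩ := (mem_ball_iff A n g).mp h
  exact A.val_mem w

/-- The group of the sections at `a` of the elements fixing `a`. -/
def Lg (a : Fin d) : Subgroup (Equiv.Perm (List (Fin d))) where
  carrier := {x | ∃ h ∈ A.G, ∀ w, h (a :: w) = a :: x w}
  one_mem' := ⟨1, A.G.one_mem, fun w => rfl⟩
  mul_mem' := by
    rintro x y ⟨h, hh, hx⟩ ⟨h', hh', hy⟩
    refine ⟨h * h', A.G.mul_mem hh hh', fun w => ?_⟩
    rw [Equiv.Perm.mul_apply, hy, hx]
    rfl
  inv_mem' := by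
    rintro x ⟨h, hh, hx⟩
    refine ⟨h⁻¹, A.G.inv_mem hh, fun w => ?_⟩
    rw [Equiv.Perm.inv_eq_iff_eq, hx]
    simp

/-- The image of the ball in the set of cosets. -/
def Om (a : Fin d) (n : ℕ) : Set (Equiv.Perm (List (Fin d)) ⧸ Lg A a) :=
  (fun g => (QuotientGroup.mk g : Equiv.Perm (List (Fin d)) ⧸ Lg A a)) ''
    ball (Set.range A.perm) n

theorem one_mem_ball (n : ℕ) : (1 : Equiv.Perm (List (Fin d))) ∈ ball (Set.range A.perm) n :=
  ⟨[], by simp, by simp, rfl⟩

theorem Om_finite (a : Fin d) (n : ℕ) : (Om A a n).Finite := (finite_ball A n).image _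

theorem Om_card (a : Fin d) (hS : ¬ SecFin A a) (n : ℕ) : n + 1 ≤ (Om A a n).ncard := by
  induction n with
  | zero =>
    have : (Om A a 0).Nonempty := ⟨_, 1, one_mem_ball A 0, rfl⟩
    have := (Set.ncard_pos (Om_finite A a 0)).mpr this
    omega
  | succ n ih =>
    have hsub : Om A a n ⊆ Om A a (n + 1) := Set.image_mono (ball_mono A (Nat.le_succ n))
    by_contra hlt
    have heq : Om A a n = Om A a (n + 1) :=
      Set.eq_of_subset_of_ncard_le hsub (by omega) (Om_finite A a (n + 1))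
    apply hS
    have hall : ∀ w : List (S (Fin m)),
        (QuotientGroup.mk (A.val w) : Equiv.Perm (List (Fin d)) ⧸ Lg A a) ∈ Om A a n := by
      intro w
      induction w with
      | nil => exact ⟨1, one_mem_ball A n, rfl⟩
      | cons s w ihw =>
        obtain ⟨g, hg, hgw⟩ := ihw
        have h1 : g⁻¹ * A.val w ∈ Lg A a := QuotientGroup.eq.mp hgw
        rw [heq]
        refine ⟨A.ps s * g, ?_, ?_⟩
        · have hs : A.ps s ∈ ball (Set.range A.perm) 1 :=
            (mem_ball_iff A 1 _).mpr ⟨[s], by simp, by simp [Auto.val]⟩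
          have := mul_mem_ball A hs hg
          rwa [add_comm] at this
        · refine QuotientGroup.eq.mpr ?_
          rw [A.val_cons]
          have : (A.ps s * g)⁻¹ * (A.ps s * A.val w) = g⁻¹ * A.val w := by group
          rw [this]
          exact h1
    refine ⟨(finite_ball A n).toFinset, fun g hg => ?_⟩
    obtain ⟨w, rfl⟩ := (A.mem_G_iff g).mp hg
    obtain ⟨e, he, heq'⟩ := hall w
    have h1 : e⁻¹ * A.val w ∈ Lg A a := QuotientGroup.eq.mp heq'
    obtain ⟨h, hh, hw⟩ := h1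
    exact ⟨e, by simpa using he, ball_sub_G A he, h, hh, hw⟩

/-- The stabiliser of the letter in the ball. -/
def SB (a : Fin d) (n : ℕ) : Set (Equiv.Perm (List (Fin d))) :=
  {g | g ∈ ball (Set.range A.perm) n ∧ g [a] = [a]}

/-- The elements of `L` in the ball. -/
def LB (a : Fin d) (n : ℕ) : Set (Equiv.Perm (List (Fin d))) :=
  {g | g ∈ ball (Set.range A.perm) n ∧ g ∈ Lg A a}

theorem LB_card (a : Fin d) (hS : ¬ SecFin A a) (n : ℕ) :
    (n + 1) * (LB A a n).ncard ≤ growth (Set.range A.perm) (2 * n) := by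
  have h1 := Om_card A a hS n
  have hex : ∀ ω ∈ Om A a n, ∃ g ∈ ball (Set.range A.perm) n,
      (QuotientGroup.mk g : Equiv.Perm (List (Fin d)) ⧸ Lg A a) = ω := fun ω hω => hω
  choose! r hr1 hr2 using hex
  have h2 : ((Om A a n) ×ˢ (LB A a n)).ncard ≤ (ball (Set.range A.perm) (2 * n)).ncard := by
    refine Set.ncard_le_ncard_of_injOn (fun x => r x.1 * x.2) ?_ ?_ (finite_ball A _)
    · rintro ⟨ω, l⟩ ⟨hω, hl⟩
      have := mul_mem_ball A (hr1 ω hω) hl.1
      rwa [← two_mul] at this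
    · rintro ⟨ω, l⟩ ⟨hω, hl⟩ ⟨ω', l'⟩ ⟨hω', hl'⟩ heq
      simp only at heq hω hω' hl hl'
      have h3 : ∀ ω ∈ Om A a n, ∀ l ∈ LB A a n,
          (QuotientGroup.mk (r ω * l) : Equiv.Perm (List (Fin d)) ⧸ Lg A a) = ω := by
        intro ω hω l hl
        conv_rhs => rw [← hr2 ω hω]
        refine (QuotientGroup.eq.mpr ?_).symm
        rw [inv_mul_cancel_left]
        exact hl.2
      have h4 : ω = ω' := by
        rw [← h3 ω hω l hl, heq, h3 ω' hω' l' hl']
      subst h4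
      have h5 : l = l' := mul_left_cancel heq
      rw [h5]
  rw [Set.ncard_prod] at h2
  calc (n + 1) * (LB A a n).ncard ≤ (Om A a n).ncard * (LB A a n).ncard :=
        Nat.mul_le_mul_right _ h1
    _ ≤ _ := h2

theorem LB_finite (a : Fin d) (n : ℕ) : (LB A a n).Finite := (finite_ball A n).subset fun _ h => h.1
theorem SB_finite (a : Fin d) (n : ℕ) : (SB A a n).Finite := (finite_ball A n).subset fun _ h => h.1

theorem SB_le_LB (hLN : A.LN) (a : Fin d) (n : ℕ) : (SB A a n).ncard ≤ (LB A a n).ncard := by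
  have hex : ∀ g ∈ SB A a n, ∃ x ∈ LB A a n, ∀ w, g (a :: w) = a :: x w := by
    rintro g ⟨hg, hga⟩
    obtain ⟨w, hw, rfl⟩ := (mem_ball_iff A n g).mp hg
    have h0 : A.toWA.ltw w a = a := by
      rw [A.val_apply_cons] at hga
      exact (List.cons.inj hga).1
    have h1 : ∀ u, A.val w (a :: u) = a :: A.val (A.toWA.scw w a) u := by
      intro u
      rw [A.val_apply_cons, h0]
    refine ⟨A.val (A.toWA.scw w a), ⟨(mem_ball_iff A n _).mpr ⟨_, ?_, rfl⟩,
      ⟨A.val w, A.val_mem w, h1⟩⟩, h1⟩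
    rw [A.scw_length]
    exact hw
  choose! f hf1 hf2 using hex
  refine Set.ncard_le_ncard_of_injOn f hf1 ?_ (LB_finite A a n)
  intro g hg g' hg' heq
  have h1 : g⁻¹ * g' = 1 := by
    refine hLN _ (A.G.mul_mem (A.G.inv_mem (ball_sub_G A hg.1)) (ball_sub_G A hg'.1)) [a] ?_
    intro w
    simp only [List.singleton_append]
    rw [Equiv.Perm.mul_apply, hf2 g' hg', ← heq, ← hf2 g hg]
    exact g.symm_apply_apply _
  exact inv_mul_eq_one.mp h1

theorem exists_c (a : Fin d) : ∃ c : ℕ, ∀ n,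
    growth (Set.range A.perm) n ≤ d * (SB A a (n + c)).ncard := by
  classical
  have h1 : ∀ b : Fin d, ∃ (c : ℕ) (v : Equiv.Perm (List (Fin d))), v ∈ ball (Set.range A.perm) c ∧
      ((∃ g ∈ A.G, g [b] = [a]) → v [b] = [a]) := by
    intro b
    by_cases h : ∃ g ∈ A.G, g [b] = [a]
    · obtain ⟨g, hg, hgb⟩ := h
      obtain ⟨w, rfl⟩ := (A.mem_G_iff g).mp hg
      exact ⟨w.length, A.val w, (mem_ball_iff A _ _).mpr ⟨w, le_rfl, rfl⟩, fun _ => hgb⟩
    · exact ⟨0, 1, one_mem_ball A 0, fun h' => absurd h' h⟩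
  choose c v hv1 hv2 using h1
  refine ⟨∑ b, c b, fun n => ?_⟩
  have hcb : ∀ b, c b ≤ ∑ b, c b := fun b =>
    Finset.single_le_sum (f := c) (fun _ _ => Nat.zero_le _) (Finset.mem_univ b)
  -- the first letter of `g [a]`
  have h2 : ∀ g ∈ ball (Set.range A.perm) n, ∃ b : Fin d, g [a] = [b] := by
    intro g hg
    obtain ⟨w, -, rfl⟩ := (mem_ball_iff A n g).mp hg
    refine ⟨A.toWA.ltw w a, ?_⟩
    rw [A.val_apply_cons, A.val_apply_nil]
  have : Nonempty (Fin d) := ⟨a⟩
  choose! fl hfl using h2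
  have h3 : (ball (Set.range A.perm) n).ncard ≤
      ((Set.univ : Set (Fin d)) ×ˢ (SB A a (n + ∑ b, c b))).ncard := by
    refine Set.ncard_le_ncard_of_injOn (fun g => (fl g, v (fl g) * g)) ?_ ?_
      (Set.finite_univ.prod (SB_finite A a _))
    · intro g hg
      refine ⟨Set.mem_univ _, ?_, ?_⟩
      · have := mul_mem_ball A (ball_mono A (hcb (fl g)) (hv1 (fl g))) hg
        rwa [add_comm] at this
      · show (v (fl g) * g) [a] = [a]
        rw [Equiv.Perm.mul_apply, hfl g hg]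
        refine hv2 (fl g) ⟨g⁻¹, A.G.inv_mem (ball_sub_G A hg), ?_⟩
        rw [Equiv.Perm.inv_eq_iff_eq, hfl g hg]
    · intro g hg g' hg' heq
      simp only [Prod.mk.injEq] at heq
      obtain ⟨e1, e2⟩ := heq
      rw [e1] at e2
      exact mul_left_cancel e2
  rw [Set.ncard_prod, Set.ncard_univ, Nat.card_eq_fintype_card, Fintype.card_fin] at h3
  exact h3

end

theorem fidx : S_FIDX := by
  intro m d A hLN ⟨C, D, hCD⟩ a
  by_contra hS
  obtain ⟨c, hc⟩ := exists_c A a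
  have hd : 0 < d := a.pos
  set β := growth (Set.range A.perm) with hβ
  have hβ1 : ∀ n, 1 ≤ β n := by
    intro n
    have : (ball (Set.range A.perm) n).Nonempty := ⟨1, one_mem_ball A n⟩
    exact (Set.ncard_pos (finite_ball A n)).mpr this
  have hmain : ∀ n, (n + c + 1) * β n ≤ d * β (2 * (n + c)) := by
    intro n
    calc (n + c + 1) * β n ≤ (n + c + 1) * (d * (SB A a (n + c)).ncard) :=
          Nat.mul_le_mul_left _ (hc n)
      _ ≤ (n + c + 1) * (d * (LB A a (n + c)).ncard) :=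
          Nat.mul_le_mul_left _ (Nat.mul_le_mul_left _ (SB_le_LB A hLN a _))
      _ = d * ((n + c + 1) * (LB A a (n + c)).ncard) := by ring
      _ ≤ d * β (2 * (n + c)) := Nat.mul_le_mul_left _ (LB_card A a hS (n + c))
  set Λ := 2 ^ (D + 1) with hΛ
  have hstep : ∀ n, Λ * d ≤ n + c + 1 → Λ * β n ≤ β (2 * (n + c)) := by
    intro n hn
    have h1 := hmain n
    have h2 : d * (Λ * β n) ≤ d * β (2 * (n + c)) := by
      calc d * (Λ * β n) = (Λ * d) * β n := by ring
        _ ≤ (n + c + 1) * β n := Nat.mul_le_mul_right _ hn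
        _ ≤ _ := h1
    exact Nat.le_of_mul_le_mul_left h2 hd
  set n₀ := Λ * d with hn₀
  set K := C * (n₀ + 2 * c + 1) ^ D with hK
  have hseq : ∀ j, ∃ n, n₀ ≤ n ∧ n + 2 * c = 2 ^ j * (n₀ + 2 * c) ∧ Λ ^ j ≤ β n := by
    intro j
    induction j with
    | zero => exact ⟨n₀, le_rfl, by simp, by simpa using hβ1 n₀⟩
    | succ j ih =>
      obtain ⟨n, h1, h2, h3⟩ := ih
      refine ⟨2 * (n + c), by omega, ?_, ?_⟩
      · rw [pow_succ]
        have : 2 ^ j * 2 * (n₀ + 2 * c) = 2 * (2 ^ j * (n₀ + 2 * c)) := by ring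
        rw [this, ← h2]
        ring
      · rw [pow_succ]
        calc Λ ^ j * Λ ≤ β n * Λ := Nat.mul_le_mul_right _ h3
          _ = Λ * β n := by ring
          _ ≤ _ := hstep n (by omega)
  obtain ⟨n, h1, h2, h3⟩ := hseq K
  have h4 := hCD n
  have h5 : n + 1 ≤ 2 ^ K * (n₀ + 2 * c + 1) := by
    have : 1 ≤ 2 ^ K := Nat.one_le_two_pow
    have h6 : 2 ^ K * (n₀ + 2 * c + 1) = 2 ^ K * (n₀ + 2 * c) + 2 ^ K := by ring
    rw [h6, ← h2]
    omega
  have h6 : Λ ^ K ≤ K * (2 ^ K) ^ D := by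
    calc Λ ^ K ≤ β n := h3
      _ ≤ C * (n + 1) ^ D := h4
      _ ≤ C * (2 ^ K * (n₀ + 2 * c + 1)) ^ D := Nat.mul_le_mul_left _ (Nat.pow_le_pow_left h5 D)
      _ = K * (2 ^ K) ^ D := by rw [mul_pow, hK]; ring
  have h7 : Λ ^ K = 2 ^ K * (2 ^ K) ^ D := by
    rw [hΛ, ← pow_mul, ← pow_mul, ← pow_add]
    congr 1
    ring
  rw [h7] at h6
  have h8 : 2 ^ K ≤ K := Nat.le_of_mul_le_mul_right h6 (by positivity)
  have h9 : K < 2 ^ K := Nat.lt_two_pow_self
  omega

end Pool.Agent.Helper2.LN
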