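import Pool.Agent.Helper64.LN.GoalsB

set_option autoImplicit false

open Topology Filter Set Metric UpperHalfPlane
open scoped MatrixGroups

namespace Pool.Agent.Helper2.LN

open Pool.Agent.Helper64 Pool.Agent.Helper64.LN

lemma T1_smul (z : ℍ) : ((PQ.T1 • z : ℍ) : ℂ) = z + 1 := by
  rw [UpperHalfPlane.coe_specialLinearGroup_apply]
  simp [PQ.T1]

lemma Uni_cont {X : Type*} [TopologicalSpace X] {B : Set X} {u : ℍ → X} (hu : Uni B u) :
    Continuous u := by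
  rw [continuous_iff_continuousAt]
  intro z
  apply hu.cov.continuousAt
  rw [← hu.range]
  exact ⟨z, rfl⟩

lemma tr_conj (N l : SL(2, ℝ)) :
    (N⁻¹ * l * N) 0 0 + (N⁻¹ * l * N) 1 1 = l 0 0 + l 1 1 := by
  have hdet := N.det_coe
  rw [Matrix.det_fin_two] at hdet
  simp only [Matrix.SpecialLinearGroup.coe_mul, Matrix.SpecialLinearGroup.coe_inv,
    Matrix.adjugate_fin_two, Matrix.mul_apply, Fin.sum_univ_two, Matrix.of_apply,
    Matrix.cons_val', Matrix.cons_val_zero, Matrix.cons_val_one, Matrix.cons_val_fin_one]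
  linear_combination (l 0 0 + l 1 1) * hdet

lemma nc_par (l N : SL(2, ℝ)) (h : 2 < |l 0 0 + l 1 1|) :
    mh l * mh (N * PQ.T1 * N⁻¹) ≠ mh (N * PQ.T1 * N⁻¹) * mh l := by
  intro h1
  rw [← map_mul, ← map_mul, mh_eq_iff] at h1
  set k := N⁻¹ * l * N with hk
  have htr : k 0 0 + k 1 1 = l 0 0 + l 1 1 := tr_conj N l
  have hdet := k.det_coe
  rw [Matrix.det_fin_two] at hdet
  have e1 : ∀ i j, (k * PQ.T1) i j = (k i 0 : ℝ) * PQ.T1 0 j + k i 1 * PQ.T1 1 j := by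
    intro i j
    rw [Matrix.SpecialLinearGroup.coe_mul, Matrix.mul_apply, Fin.sum_univ_two]
  have e2 : ∀ i j, (PQ.T1 * k) i j = (PQ.T1 i 0 : ℝ) * k 0 j + PQ.T1 i 1 * k 1 j := by
    intro i j
    rw [Matrix.SpecialLinearGroup.coe_mul, Matrix.mul_apply, Fin.sum_univ_two]
  have t00 : (PQ.T1 0 0 : ℝ) = 1 := rfl
  have t01 : (PQ.T1 0 1 : ℝ) = 1 := rfl
  have t10 : (PQ.T1 1 0 : ℝ) = 0 := rfl
  have t11 : (PQ.T1 1 1 : ℝ) = 1 := rfl
  rcases h1 with h1 | h1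
  · have h2 : k * PQ.T1 = PQ.T1 * k := by
      have := congrArg (fun x => N⁻¹ * x * N) h1
      simp only [hk]
      simpa [mul_assoc] using this
    have a1 : (k * PQ.T1) 0 0 = (PQ.T1 * k) 0 0 := by rw [h2]
    have a2 : (k * PQ.T1) 0 1 = (PQ.T1 * k) 0 1 := by rw [h2]
    rw [e1, e2, t00, t10, t01] at a1
    rw [e1, e2, t00, t11, t01] at a2
    have c0 : k 1 0 = 0 := by linarith
    have c1 : k 0 0 = k 1 1 := by linarith
    rw [c0, c1] at hdet
    rw [← htr, c1] at h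
    have h3 : k 1 1 ^ 2 = 1 := by linarith
    have h4 : |k 1 1 + k 1 1| ^ 2 = 4 := by rw [sq_abs]; linarith
    nlinarith
  · have h2 : k * PQ.T1 = -(PQ.T1 * k) := by
      have := congrArg (fun x => N⁻¹ * x * N) h1
      simp only [hk]
      simpa [mul_assoc] using this
    have a1 : (k * PQ.T1) 0 0 = (-(PQ.T1 * k)) 0 0 := by rw [h2]
    have a2 : (k * PQ.T1) 1 0 = (-(PQ.T1 * k)) 1 0 := by rw [h2]
    rw [Matrix.SpecialLinearGroup.coe_neg, Matrix.neg_apply, e1, e2, t00, t10, t01] at a1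
    rw [Matrix.SpecialLinearGroup.coe_neg, Matrix.neg_apply, e1, e2, t00, t10, t11] at a2
    have c0 : k 1 0 = 0 := by linarith
    have c1 : k 0 0 = 0 := by rw [c0] at a1; linarith
    rw [c0, c1] at hdet
    norm_num at hdet

/-- The horocyclic curve. -/
noncomputable def hc (A : SL(2, ℝ)) (ζ : ℍ) : C(ℝ, ℍ) where
  toFun t := A • (⟨(ζ : ℂ) + t, by simpa using ζ.im_pos⟩ : ℍ)
  continuous_toFun := by
    have h1 : Continuous fun t : ℝ => (⟨(ζ : ℂ) + t, by simpa using ζ.im_pos⟩ : ℍ) := by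
      rw [UpperHalfPlane.isEmbedding_coe.continuous_iff]
      exact continuous_const.add Complex.continuous_ofReal
    exact (mh A).continuous.comp h1

lemma hc_zero (A : SL(2, ℝ)) (ζ : ℍ) : hc A ζ 0 = A • ζ := by
  change A • (⟨(ζ : ℂ) + ((0 : ℝ) : ℂ), _⟩ : ℍ) = A • ζ
  congr 1
  apply UpperHalfPlane.ext
  simp

lemma hc_per (A : SL(2, ℝ)) (ζ : ℍ) (t : ℝ) : hc A ζ (t + 1) = piA A (hc A ζ t) := by
  change A • (⟨(ζ : ℂ) + ((t + 1 : ℝ) : ℂ), _⟩ : ℍ) =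
    (A * PQ.T1 * A⁻¹) • A • (⟨(ζ : ℂ) + (t : ℂ), _⟩ : ℍ)
  rw [mul_smul, inv_smul_smul, mul_smul]
  congr 1
  apply UpperHalfPlane.ext
  rw [T1_smul]
  simp only [Complex.ofReal_add, Complex.ofReal_one]
  ring

lemma hc_im (A : SL(2, ℝ)) (ζ : ℍ) (t : ℝ) : ∃ z : ℍ, hc A ζ t = A • z ∧ z.im = ζ.im :=
  ⟨⟨(ζ : ℂ) + t, by simpa using ζ.im_pos⟩, rfl, by
    change ((ζ : ℂ) + (t : ℂ)).im = ζ.im
    simp⟩

/-- No path over the complement of the curve from the inside to the outside. -/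
lemma crossing {X : Type*} [TopologicalSpace X] [T2Space X] {K c : Set X} (hK : IsCompact K)
    (hfr : frontier K = c) {u : ℍ → X} (hu : Continuous u) {z w : ℍ} (hz : u z ∈ interior K)
    (hw : u w ∉ K) (τ : C(unitInterval, ℍ)) (h0 : τ 0 = z) (h1 : τ 1 = w)
    (h : ∀ t, u (τ t) ∉ c) : False := by
  have hconn : IsPreconnected (Set.range (fun t => u (τ t))) :=
    isPreconnected_range (hu.comp τ.continuous)
  obtain ⟨x, _, hx1, hx2⟩ := hconn (interior K) Kᶜ isOpen_interior hK.isClosed.isOpen_compl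
    (by
      rintro _ ⟨t, rfl⟩
      by_cases h2 : u (τ t) ∈ K
      · left
        by_contra h3
        apply h t
        rw [← hfr]
        exact ⟨subset_closure h2, h3⟩
      · right
        exact h2)
    ⟨u z, ⟨0, by simp only [h0]⟩, hz⟩ ⟨u w, ⟨1, by simp only [h1]⟩, hw⟩
  exact hx2 (interior_subset hx1)

theorem goalGA1.{v} (h0 : GoalG0.{v}) (hCR3 : GoalCR3) (hPRE : GoalPRE.{v}) (hREG : GoalREG.{v})
    (hSZ : GoalSZ) (hCU1 : GoalCU1.{v}) : GoalGA1.{v} := by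
  intro X _ _ p P u C K γ ω W A ζ hC hB ν hν hout hνh hNc h hh
  have hGood : Good (PQ.deckG u) := h0 X (insert p P) u hC.uni
  have hcont : Continuous u := Uni_cont hC.uni
  have hKc : IsClosed K := hC.comp.isClosed
  obtain ⟨σ, hσ1, hσ2⟩ := hout
  have hfrK : C '' sphere (0 : ℂ) 1 ⊆ K := by
    rw [← hC.fr]
    exact hKc.frontier_subset
  have hfrI : ∀ x ∈ interior K, x ∉ C '' sphere (0 : ℂ) 1 := by
    rw [← hC.fr]
    intro x hx hx2
    exact hx2.2 hx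
  have huz : u (h (A • ζ)) ∈ interior K := by
    rw [deck_apply hh]
    exact hB.inK ζ le_rfl
  have hex : ∃ g ∈ deck u, Sz (g * γ * g⁻¹) (h (A • ζ)) (σ 0) := by
    by_contra hno
    push Not at hno
    obtain ⟨τ, t0, t1, t2⟩ := (hREG X p P u C K γ ω hC (h (A • ζ)) (σ 0) (hfrI _ huz)
      (fun h' => hσ2 0 (hfrK h'))).1 hno
    exact crossing hC.comp hC.fr hcont huz (hσ2 0) τ t0 t1 t2
  obtain ⟨g, hg, hSz⟩ := hex
  have hlam : g * γ * g⁻¹ ∈ deck u := mul_mem (mul_mem hg hC.deck) (inv_mem hg)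
  obtain ⟨hpi1, _, _⟩ := hCU1 X p (insert p P) u A hC.uni (mem_insert _ _) hB.cusp
  have hp' : h * piA A * h⁻¹ ∈ deck u := mul_mem (mul_mem hh hpi1) (inv_mem hh)
  have htr : ∃ l ∈ PQ.deckG u, mh l = g * γ * g⁻¹ ∧ 2 < |l 0 0 + l 1 1| := by
    obtain ⟨e, he, hce⟩ := hC.hp
    have h1 : Cr Sp (g * γ * g⁻¹) (g * e * g⁻¹) := (Cr_conj_iff g γ e).2 hce
    obtain ⟨l, hl, hl'⟩ := hlam
    obtain ⟨d, hd, hd'⟩ : g * e * g⁻¹ ∈ deck u := mul_mem (mul_mem hg he) (inv_mem hg)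
    have hl'' : mh l = g * γ * g⁻¹ := hl'
    have hd'' : mh d = g * e * g⁻¹ := hd'
    have := hCR3 _ hGood l hl d hd (by rw [hl'', hd'']; exact h1)
    exact ⟨l, hl, hl'', this.1⟩
  obtain ⟨l, hl, hl', hltr⟩ := htr
  have hlamhy : hy (g * γ * g⁻¹) := ⟨l, hl'.symm, hltr⟩
  have hnp : Nc (g * γ * g⁻¹) (h * piA A * h⁻¹) := by
    obtain ⟨h1, _, hh'⟩ := mem_deck.1 hh |>.imp fun a b => b
    intro hcm
    have e1 : h * piA A * h⁻¹ = mh ((h1 * A) * PQ.T1 * (h1 * A)⁻¹) := by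
      rw [hh', piA, ← map_inv, ← map_mul, ← map_mul]
      congr 1
      group
    rw [e1, ← hl'] at hcm
    exact nc_par l (h1 * A) hltr hcm
  refine ⟨g, hg, ?_⟩
  have hPRE' := (hPRE X p P u C K γ ω hC).2
  have key := hSZ (PQ.deckG u) hGood (g * γ * g⁻¹) hlam (h * piA A * h⁻¹) hp' ν hν hlamhy hnp
    (hNc g hg) ⟨fun t => h (hc A ζ t), h.continuous.comp (hc A ζ).continuous⟩ σ
    (by
      intro t
      change h (hc A ζ (t + 1)) = h (piA A (h⁻¹ (h (hc A ζ t))))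
      rw [hc_per]
      congr 2
      exact (h.symm_apply_apply _).symm) hσ1
    (by
      intro t ht
      have h1 : u (h (hc A ζ t)) ∈ C '' sphere (0 : ℂ) 1 := (hPRE' _).2 ⟨g, hg, ht⟩
      rw [deck_apply hh] at h1
      obtain ⟨z, hz1, hz2⟩ := hc_im A ζ t
      rw [hz1] at h1
      exact hfrI _ (hB.inK z hz2.ge) h1)
    (by
      intro t ht
      exact hσ2 t (hfrK ((hPRE' _).2 ⟨g, hg, ht⟩))) 0 0
  rw [key]
  change Sz (g * γ * g⁻¹) (h (hc A ζ 0)) (σ 0)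
  rw [hc_zero]
  exact hSz

end Pool.Agent.Helper2.LN
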